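import Mathlib
import Pool.Agent.H17.Vald

set_option autoImplicit false

namespace Pool.Agent.Results.MP_3028b5_gt.NoCopy

/-- Valdivia: an embedding into a power of the line with a dense set of countably supported points. -/
def Valdivia (K : Type) [TopologicalSpace K] : Prop :=
  ∃ (Γ : Type) (h : K → Γ → ℝ), Topology.IsEmbedding h ∧ Dense {x | {γ | h x γ ≠ 0}.Countable}

/-- Radon-Nikodym: fragmented by a lower semicontinuous metric. -/
def RN (K : Type) [TopologicalSpace K] : Prop :=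
  ∃ d : K → K → ℝ, (∀ x y, d x y = 0 ↔ x = y) ∧ (∀ x y, d x y = d y x) ∧
    (∀ x y z, d x z ≤ d x y + d y z) ∧ LowerSemicontinuous (fun p : K × K => d p.1 p.2) ∧
    ∀ L : Set K, L.Nonempty → ∀ ε > 0, ∃ U, IsOpen U ∧ (U ∩ L).Nonempty ∧
      ∃ r < ε, ∀ x ∈ U ∩ L, ∀ y ∈ U ∩ L, d x y ≤ r

theorem result (K : Type) [TopologicalSpace K] [CompactSpace K] [T2Space K] (h1 : RN K)
    (h2 : Valdivia K) :
    ¬ ∃ f : Set.Iic (Cardinal.aleph.{0} 2).ord → K, Topology.IsEmbedding f := by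
  rintro ⟨f, hf⟩
  obtain ⟨Γ, e, he, hD⟩ := h2
  obtain ⟨d, d0, d1, d2, d3, d4⟩ := h1
  refine H17.Vald.no_copy (e ∘ f) (he.continuous.comp hf.continuous)
    (he.injective.comp hf.injective) fun x => ?_
  refine H17.Vald.supp_small e he.continuous hD d ?_ ?_ (f x)
  · intro A B hA hB h
    rcases (A ×ˢ B).eq_empty_or_nonempty with c | c
    · refine ⟨1, one_pos, fun a ha b hb => ?_⟩
      exact absurd (show (a, b) ∈ A ×ˢ B from ⟨ha, hb⟩) (by rw [c]; exact id)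
    · obtain ⟨p, hp, hmin⟩ := (d3.lowerSemicontinuousOn (A ×ˢ B)).exists_isMinOn c
        (hA.isCompact.prod hB.isCompact)
      refine ⟨d p.1 p.2, ?_, fun a ha b hb => hmin (show (a, b) ∈ A ×ˢ B from ⟨ha, hb⟩)⟩
      have a1 := d2 p.1 p.2 p.1
      rw [(d0 _ _).2 rfl, d1 p.2 p.1] at a1
      have a2 : d p.1 p.2 ≠ 0 := fun z =>
        Set.disjoint_left.1 h hp.1 (((d0 _ _).1 z) ▸ hp.2)
      exact lt_of_le_of_ne (by linarith) a2.symm
  · intro L hL ε hε
    obtain ⟨U, a, b, r, hr, c⟩ := d4 L hL ε hε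
    exact ⟨U, a, b, fun x hx y hy => (c x hx y hy).trans_lt hr⟩

end Pool.Agent.Results.MP_3028b5_gt.NoCopy
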